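import Pool.Agent.LibHM79S.Stmt
import Pool.Agent.LibHM79S.M2

/-! MP_498328_ag: existence and uniqueness of the extension for subvarieties of homogeneous varieties. -/

namespace Pool.Agent.Results.MP_498328_ag.HomogeneousExtension

open AlgebraicGeometry CategoryTheory LibHM79 LibHM79S

theorem result (k : Type) [Field k] [IsAlgClosed k] [CharZero k] (G X Y Z : SchK k)
    [GrpObj G] [ModObj G X] [IsIntegral G.left] [Smooth G.hom] [IsSeparated G.hom]
    [QuasiCompact G.hom] [IsIntegral X.left] [IsProper X.hom] (hX : Factorial X.left)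
    (i : Y ⟶ X) [IsClosedImmersion i.left] [IsIntegral Y.left] (hY : NormalSch Y.left)
    (x₀ : Pt X) (hO : GoodOrbit (G := G) i x₀) (r : ℕ) (ha : Meets i.left r)
    (hb : MeetsConn i.left r) (hc : Spanning (G := G) i)
    [IsSeparated Z.hom] [LocallyOfFiniteType Z.hom] (π : Y ⟶ Z)
    (hdim : topologicalKrullDim Z.left + r < topologicalKrullDim Y.left) :
    ∃! f : X ⟶ Z, i ≫ f = π :=
  haveI := hO.1
  haveI := hO.2
  LibHM79S.main2 k G X Y Z hX i hY x₀ r ha hb hc π hdim

end Pool.Agent.Results.MP_498328_ag.HomogeneousExtension
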