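import Pool.Agent.LibMX2.S12

/-! MP_498328_ag: a morphism from `X` to a scheme of dimension less than `dim X - r` has the same image as its
restriction to `Y`. -/

namespace Pool.Agent.Results.MP_498328_ag.SameImage

open AlgebraicGeometry CategoryTheory TopologicalSpace

theorem result (k : Type) [Field k] [IsAlgClosed k] (X Y Z : Scheme.{0})
    (sX : X ⟶ Spec (.of k)) (sZ : Z ⟶ Spec (.of k)) (i : Y ⟶ X)
    [IsIntegral X] [IsProper sX] [IsSeparated sZ] [LocallyOfFiniteType sZ]
    [IsClosedImmersion i] (r : ℕ)
    (hY : ∀ W : Set X, IsClosed W → IsIrreducible W →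
      (r : WithBot ℕ∞) ≤ topologicalKrullDim W → (W ∩ Set.range i).Nonempty)
    (hdim : topologicalKrullDim Z + r < topologicalKrullDim X)
    (g : X ⟶ Z) (hg : g ≫ sZ = sX) : Set.range (i ≫ g) = Set.range g := by
  rw [LibMX2.image_eq X Z sX sZ r hdim (Set.range i) i.isClosedEmbedding.isClosed_range
    (fun w hw => hY _ isClosed_closure isIrreducible_singleton.closure hw) g hg]
  rw [← Set.range_comp]
  rfl

end Pool.Agent.Results.MP_498328_ag.SameImage
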