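import Pool.Agent.LibMX2.S11

/-! MP_498328_ag: the uniqueness half of Q1. A morphism from the whole of `X` to a scheme `Z` of dimension
less than `dim X - r` is determined by its values on a set of points that meets every irreducible closed
subset of dimension at least `r`. -/

namespace Pool.Agent.Results.MP_498328_ag.UniqueExtension

open AlgebraicGeometry CategoryTheory TopologicalSpace

theorem result (k : Type) [Field k] [IsAlgClosed k] (X Y Z : Scheme.{0})
    (sX : X ⟶ Spec (.of k)) (sZ : Z ⟶ Spec (.of k)) (i : Y ⟶ X)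
    [IsIntegral X] [IsProper sX] [IsSeparated sZ] [LocallyOfFiniteType sZ] (r : ℕ)
    (hY : ∀ W : Set X, IsClosed W → IsIrreducible W →
      (r : WithBot ℕ∞) ≤ topologicalKrullDim W → (W ∩ Set.range i).Nonempty)
    (hdim : topologicalKrullDim Z + r < topologicalKrullDim X)
    (g₁ g₂ : X ⟶ Z) (h₁ : g₁ ≫ sZ = sX) (h₂ : g₂ ≫ sZ = sX)
    (hg : ∀ y : Y, g₁ (i y) = g₂ (i y)) : g₁ = g₂ := by
  have hloc : LocallyOfFiniteType (g₁ ≫ sZ) := by rw [h₁]; infer_instance
  refine ext_of_apply_eq (K := k) sZ (Set.univ : Set X) isClosed_univ.isLocallyClosed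
    dense_univ (fun x _ hx => ?_) (h₁.trans h₂.symm)
  refine LibMX2.uniq_pt X Z sX sZ r hdim (Set.range i) (fun w hw => ?_) g₁ g₂ h₁ h₂ ?_ x hx
  · exact hY _ isClosed_closure isIrreducible_singleton.closure hw
  · rintro _ ⟨y, rfl⟩
    exact hg y

end Pool.Agent.Results.MP_498328_ag.UniqueExtension
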